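import Mathlib

/-!
Modal algebras of products of ordinals: definitions and the tuned partition lemma for relations
below a well-quasi-order.
-/

set_option autoImplicit false

universe u v

namespace Pool.Agent.Q297.OF

/-! ### Frames and modal algebras -/

/-- The operator `◇X = {w : ∃ v ∈ X, w R v}` of the modal algebra of the frame `(W, R)`. -/
def dia {W : Type u} (R : W → W → Prop) (X : Set W) : Set W := {w | ∃ v ∈ X, R w v}

/-- `S` is a subalgebra of the modal algebra of `(W, R)`. -/
structure IsSubalgebra {W : Type u} (R : W → W → Prop) (S : Set (Set W)) : Prop where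
  univ_mem : Set.univ ∈ S
  compl_mem : ∀ X ∈ S, Xᶜ ∈ S
  inter_mem : ∀ X ∈ S, ∀ Y ∈ S, X ∩ Y ∈ S
  dia_mem : ∀ X ∈ S, dia R X ∈ S

/-- The subalgebra of the modal algebra of `(W, R)` generated by the family `G`. -/
def generated {W : Type u} (R : W → W → Prop) (G : Set (Set W)) : Set (Set W) :=
  {X | ∀ S : Set (Set W), IsSubalgebra R S → G ⊆ S → X ∈ S}

/-- The modal algebra of `(W, R)` is locally finite: every finitely generated subalgebra is
finite. -/
def AlgLocallyFinite {W : Type u} (R : W → W → Prop) : Prop :=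
  ∀ G : Set (Set W), G.Finite → (generated R G).Finite

/-! ### Direct products of ordinals -/

/-- The underlying set of the direct product of the ordinals `α 0, …, α (k - 1)`, each ordinal
being the set of smaller ordinals. -/
abbrev Prd {k : ℕ} (α : Fin k → Ordinal.{u}) : Type (u + 1) := ∀ i : Fin k, {β : Ordinal.{u} // β < α i}

/-- The relation of the direct product of the frames `(α i, ≤)`. -/
def leRel {k : ℕ} (α : Fin k → Ordinal.{u}) (x y : Prd α) : Prop := ∀ i, (x i : Ordinal.{u}) ≤ y i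

/-- The relation of the direct product of the frames `(α i, <)`. -/
def ltRel {k : ℕ} (α : Fin k → Ordinal.{u}) (x y : Prd α) : Prop := ∀ i, (x i : Ordinal.{u}) < y i

/-! ### The tuned partition lemma -/

/-- Lower sets of a well-quasi-ordered set satisfy the descending chain condition. -/
theorem lowerSet_wf {P : Type u} [Preorder P] [WellQuasiOrderedLE P] :
    WellFounded (fun D E : LowerSet P => D < E) := by
  rw [RelEmbedding.wellFounded_iff_isEmpty]
  refine ⟨fun f => ?_⟩
  have hlt : ∀ n, f (n + 1) < f n := fun n => f.map_rel_iff.2 (Nat.lt_succ_self n)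
  have hanti : Antitone f := antitone_nat_of_succ_le fun n => (hlt n).le
  have hx : ∀ n, ∃ x, x ∈ f n ∧ x ∉ f (n + 1) := by
    intro n
    obtain ⟨x, h1, h2⟩ := Set.exists_of_ssubset (show (f (n + 1) : Set P) ⊂ f n from hlt n)
    exact ⟨x, h1, h2⟩
  choose x hx1 hx2 using hx
  obtain ⟨m, n, hmn, hle⟩ := (wellQuasiOrdered_le (α := P)) x
  exact hx2 m (hanti (Nat.succ_le_of_lt hmn) ((f n).lower hle (hx1 n)))

/-- A finite colouring of a lower set has a finite tuned refinement. -/
theorem tuned_aux {P : Type u} [Preorder P] [WellQuasiOrderedLE P] (R : P → P → Prop)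
    (h1 : ∀ x y, R x y → x ≤ y) (h2 : ∀ x y z, x ≤ y → R y z → R x z) (D : LowerSet P) :
    ∀ (C : Type v) (_ : Finite C) (c : P → C), ∃ (F : Type v) (_ : Finite F) (f : P → F),
      (∀ x ∈ D, ∀ x' ∈ D, f x = f x' → c x = c x') ∧
      (∀ x ∈ D, ∀ x' ∈ D, f x = f x' → ∀ y ∈ D, R x y → ∃ y' ∈ D, R x' y' ∧ f y' = f y) := by
  classical
  have wf : WellFounded (fun D E : LowerSet P => D < E) := lowerSet_wf
  induction D using wf.induction with
  | _ D ih =>
    intro C hC c
    by_cases hD : ∃ x, x ∈ D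
    · -- a point with the smallest set of visible colours
      let S : P → Set C := fun x => {a | ∃ y ∈ D, R x y ∧ c y = a}
      obtain ⟨x0, hx0, hmin⟩ : ∃ x0, x0 ∈ D ∧ ∀ x ∈ D, (S x0).ncard ≤ (S x).ncard := by
        let p : ℕ → Prop := fun n => ∃ x ∈ D, (S x).ncard = n
        have hp : ∃ n, p n := by
          obtain ⟨x, hx⟩ := hD
          exact ⟨_, x, hx, rfl⟩
        obtain ⟨x0, hx0, he⟩ := Nat.find_spec hp
        refine ⟨x0, hx0, fun x hx => ?_⟩
        rw [he]
        exact Nat.find_min' hp ⟨x, hx, rfl⟩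
      have hS : ∀ x ∈ D, x0 ≤ x → S x = S x0 := by
        intro x hx hle
        have hsub : S x ⊆ S x0 := by
          rintro a ⟨y, hy, hxy, rfl⟩
          exact ⟨y, hy, h2 _ _ _ hle hxy, rfl⟩
        exact Set.eq_of_subset_of_ncard_le hsub (hmin x hx) (Set.toFinite _)
      -- the rest
      let D' : LowerSet P := ⟨{y | y ∈ D ∧ ¬ x0 ≤ y}, by
        intro a b hba ha
        exact ⟨D.lower hba ha.1, fun h => ha.2 (h.trans hba)⟩⟩
      have hD' : ∀ y, y ∈ D' ↔ (y ∈ D ∧ ¬ x0 ≤ y) := fun y => Iff.rfl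
      have hlt : D' < D := by
        refine lt_of_le_of_ne (fun y hy => hy.1) ?_
        intro h
        have : x0 ∈ D' := by rw [h]; exact hx0
        exact this.2 le_rfl
      let c' : P → C × Set C := fun y => (c y, {a | ∃ w ∈ D, x0 ≤ w ∧ c w = a ∧ R y w})
      obtain ⟨F, hF, f, hf1, hf2⟩ := ih D' hlt (C × Set C) inferInstance c'
      refine ⟨F ⊕ C, inferInstance, fun y => if x0 ≤ y then Sum.inr (c y) else Sum.inl (f y),
        ?_, ?_⟩
      · intro x hx x' hx' hxx
        by_cases h : x0 ≤ x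
        · by_cases h' : x0 ≤ x'
          · simpa [h, h'] using hxx
          · simp [h, h'] at hxx
        · by_cases h' : x0 ≤ x'
          · simp [h, h'] at hxx
          · simp only [h, h', if_false, Sum.inl.injEq] at hxx
            exact congrArg Prod.fst (hf1 x ⟨hx, h⟩ x' ⟨hx', h'⟩ hxx)
      · intro x hx x' hx' hxx y hy hxy
        by_cases h : x0 ≤ x
        · by_cases h' : x0 ≤ x'
          · have hy0 : x0 ≤ y := h.trans (h1 _ _ hxy)
            have : c y ∈ S x' := by
              rw [hS x' hx' h', ← hS x hx h]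
              exact ⟨y, hy, hxy, rfl⟩
            obtain ⟨y', hy', hxy', hc⟩ := this
            refine ⟨y', hy', hxy', ?_⟩
            have hy0' : x0 ≤ y' := h'.trans (h1 _ _ hxy')
            simp [hy0, hy0', hc]
          · simp [h, h'] at hxx
        · by_cases h' : x0 ≤ x'
          · simp [h, h'] at hxx
          · simp only [h, h', if_false, Sum.inl.injEq] at hxx
            by_cases hy0 : x0 ≤ y
            · have hc := congrArg Prod.snd (hf1 x ⟨hx, h⟩ x' ⟨hx', h'⟩ hxx)
              have hm : c y ∈ (c' x).2 := ⟨y, hy, hy0, rfl, hxy⟩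
              rw [hc] at hm
              obtain ⟨w, hw, hw0, hcw, hR⟩ := hm
              refine ⟨w, hw, hR, ?_⟩
              simp [hy0, hw0, hcw]
            · obtain ⟨y', hy', hxy', he⟩ := hf2 x ⟨hx, h⟩ x' ⟨hx', h'⟩ hxx y ⟨hy, hy0⟩ hxy
              refine ⟨y', hy'.1, hxy', ?_⟩
              have := hy'.2
              simp [hy0, this, he]
    · push Not at hD
      exact ⟨C, hC, c, fun x hx => absurd hx (hD x), fun x hx => absurd hx (hD x)⟩

/-- A finite colouring of a well-quasi-order has a finite refinement which is tuned with respect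
to a relation `R ⊆ ≤` with `x ≤ y R z → x R z`. -/
theorem tuned {P : Type u} [Preorder P] [WellQuasiOrderedLE P] (R : P → P → Prop)
    (h1 : ∀ x y, R x y → x ≤ y) (h2 : ∀ x y z, x ≤ y → R y z → R x z)
    (C : Type v) [hC : Finite C] (c : P → C) : ∃ (F : Type v) (_ : Finite F) (f : P → F),
      (∀ x x', f x = f x' → c x = c x') ∧
      (∀ x x', f x = f x' → ∀ y, R x y → ∃ y', R x' y' ∧ f y' = f y) := by
  obtain ⟨F, hF, f, hf1, hf2⟩ := tuned_aux R h1 h2 ⊤ C hC c
  refine ⟨F, hF, f, fun x x' h => hf1 x trivial x' trivial h, fun x x' h y hy => ?_⟩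
  obtain ⟨y', -, h3, h4⟩ := hf2 x trivial x' trivial h y trivial hy
  exact ⟨y', h3, h4⟩

/-- The tuned partition property of a frame. -/
def Tunable {W : Type u} (R : W → W → Prop) : Prop :=
  ∀ (C : Type) (_ : Finite C) (c : W → C), ∃ (F : Type) (_ : Finite F) (f : W → F),
      (∀ x x', f x = f x' → c x = c x') ∧
      (∀ x x', f x = f x' → ∀ y, R x y → ∃ y', R x' y' ∧ f y' = f y)

theorem tunable_le {k : ℕ} (α : Fin k → Ordinal.{u}) : Tunable (leRel α) := fun C _ c =>
  tuned (P := Prd α) (leRel α) (fun _ _ h i => h i) (fun _ _ _ h h' i => (h i).trans (h' i)) C c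

theorem tunable_lt {k : ℕ} (α : Fin k → Ordinal.{u}) : Tunable (ltRel α) := fun C _ c =>
  tuned (P := Prd α) (ltRel α) (fun _ _ h i => (h i).le)
    (fun _ _ _ h h' i => lt_of_le_of_lt (h i) (h' i)) C c

theorem Tunable.locallyFinite {W : Type u} {R : W → W → Prop} (h : Tunable R) :
    AlgLocallyFinite R := by
  classical
  intro G hG
  obtain ⟨n, g, hg⟩ : ∃ (n : ℕ) (g : Fin n → Set W), Set.range g = G := by
    have := hG.to_subtype
    obtain ⟨n, ⟨e⟩⟩ := Finite.exists_equiv_fin G
    refine ⟨n, fun i => (e.symm i : Set W), ?_⟩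
    ext X
    constructor
    · rintro ⟨i, rfl⟩
      exact (e.symm i).2
    · intro hX
      exact ⟨e ⟨X, hX⟩, by simp⟩
  obtain ⟨F, hF, f, hf1, hf2⟩ := h (Fin n → Prop) inferInstance (fun x i => x ∈ g i)
  -- the subalgebra of the unions of fibres of `f`
  have hsub : IsSubalgebra R (Set.range fun A : Set F => f ⁻¹' A) := by
    refine ⟨⟨Set.univ, rfl⟩, ?_, ?_, ?_⟩
    · rintro _ ⟨A, rfl⟩
      exact ⟨Aᶜ, rfl⟩
    · rintro _ ⟨A, rfl⟩ _ ⟨B, rfl⟩
      exact ⟨A ∩ B, rfl⟩
    · rintro _ ⟨A, rfl⟩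
      refine ⟨{b | ∃ x, f x = b ∧ ∃ y, f y ∈ A ∧ R x y}, ?_⟩
      ext x
      constructor
      · rintro ⟨x', hx', y, hy, hR⟩
        obtain ⟨y', hR', he⟩ := hf2 x' x hx' y hR
        refine ⟨y', ?_, hR'⟩
        show f y' ∈ A
        rw [he]
        exact hy
      · rintro ⟨y, hy, hR⟩
        exact ⟨x, rfl, y, hy, hR⟩
  have hGs : G ⊆ Set.range fun A : Set F => f ⁻¹' A := by
    rw [← hg]
    rintro _ ⟨i, rfl⟩
    refine ⟨{b | ∃ x, f x = b ∧ x ∈ g i}, ?_⟩
    ext x
    constructor
    · rintro ⟨x', hx', hm⟩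
      have := congrFun (hf1 x' x hx') i
      simp only [eq_iff_iff] at this
      exact this.1 hm
    · intro hx
      exact ⟨x, rfl, hx⟩
  refine Set.Finite.subset (Set.finite_range fun A : Set F => f ⁻¹' A) fun X hX => hX _ hsub hGs

end Pool.Agent.Q297.OF
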