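import Mathlib
import Pool.Agent.Q297.OF.Base

/-!
Unimodal logics of frames and the finite model property.
-/

set_option autoImplicit false

universe u v

namespace Pool.Agent.Q297.OF

/-- Unimodal formulas. -/
inductive Fml : Type
  | var : ℕ → Fml
  | bot : Fml
  | imp : Fml → Fml → Fml
  | dia : Fml → Fml

/-- The set of points of the frame `(W, R)` at which a formula is true under the valuation `V`. -/
def truthSet {W : Type u} (R : W → W → Prop) (V : ℕ → Set W) : Fml → Set W
  | .var n => V n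
  | .bot => ∅
  | .imp φ ψ => (truthSet R V φ)ᶜ ∪ truthSet R V ψ
  | .dia φ => dia R (truthSet R V φ)

/-- The formula `φ` is valid in the frame `(W, R)`. -/
def Valid {W : Type u} (R : W → W → Prop) (φ : Fml) : Prop :=
  ∀ V : ℕ → Set W, truthSet R V φ = Set.univ

/-- The logic of the frame `(W, R)`: the set of formulas valid in it. -/
def Log {W : Type u} (R : W → W → Prop) : Set Fml := {φ | Valid R φ}

/-- A set of formulas has the finite model property: each formula not in it is refuted in some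
finite (nonempty) frame validating all its formulas. -/
def HasFMP (L : Set Fml) : Prop :=
  ∀ φ : Fml, φ ∉ L → ∃ (n : ℕ) (R' : Fin (n + 1) → Fin (n + 1) → Prop),
    (∀ ψ ∈ L, Valid R' ψ) ∧ ¬ Valid R' φ

/-- A bound for the variables of a formula. -/
def Fml.bd : Fml → ℕ
  | .var n => n + 1
  | .bot => 0
  | .imp φ ψ => max φ.bd ψ.bd
  | .dia φ => φ.bd

theorem truthSet_congr {W : Type u} (R : W → W → Prop) (V V' : ℕ → Set W) (φ : Fml)
    (h : ∀ n < φ.bd, V n = V' n) : truthSet R V φ = truthSet R V' φ := by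
  induction φ with
  | var n => exact h n (Nat.lt_succ_self n)
  | bot => rfl
  | imp φ ψ h1 h2 =>
    simp only [truthSet]
    rw [h1 fun n hn => h n (lt_of_lt_of_le hn (le_max_left _ _)),
      h2 fun n hn => h n (lt_of_lt_of_le hn (le_max_right _ _))]
  | dia φ h1 =>
    simp only [truthSet]
    rw [h1 h]

/-- Truth is preserved along surjective bounded morphisms. -/
theorem truthSet_preimage {W : Type u} {W' : Type v} (R : W → W → Prop) (R' : W' → W' → Prop)
    (f : W → W') (hfwd : ∀ x y, R x y → R' (f x) (f y))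
    (hback : ∀ x b, R' (f x) b → ∃ y, R x y ∧ f y = b) (V : ℕ → Set W') (φ : Fml) :
    truthSet R (fun n => f ⁻¹' V n) φ = f ⁻¹' truthSet R' V φ := by
  induction φ with
  | var n => rfl
  | bot => rfl
  | imp φ ψ h1 h2 =>
    simp only [truthSet]
    rw [h1, h2]
    rfl
  | dia φ h1 =>
    simp only [truthSet]
    rw [h1]
    ext x
    constructor
    · rintro ⟨y, hy, hR⟩
      exact ⟨f y, hy, hfwd _ _ hR⟩
    · rintro ⟨b, hb, hR⟩
      obtain ⟨y, hy, rfl⟩ := hback x b hR
      exact ⟨y, hb, hy⟩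

theorem Tunable.hasFMP {W : Type u} {R : W → W → Prop} (hne : Nonempty W) (h : Tunable R) :
    HasFMP (Log R) := by
  classical
  intro φ hφ
  have hφ' : ∃ V : ℕ → Set W, truthSet R V φ ≠ Set.univ := by
    by_contra hcon
    push Not at hcon
    exact hφ hcon
  obtain ⟨V, hV⟩ := hφ'
  obtain ⟨F, hF, f, hf1, hf2⟩ :=
    h (Fin φ.bd → Prop) inferInstance (fun x i => x ∈ V i)
  obtain ⟨x0⟩ := hne
  -- the image of `f`, enumerated
  have hfin : Finite (Set.range f) := inferInstance
  obtain ⟨m, ⟨e⟩⟩ := Finite.exists_equiv_fin (Set.range f)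
  obtain ⟨n, rfl⟩ : ∃ n, m = n + 1 := by
    rcases m with _ | n
    · exact (e ⟨f x0, x0, rfl⟩).elim0
    · exact ⟨n, rfl⟩
  let g : W → Fin (n + 1) := fun x => e ⟨f x, x, rfl⟩
  have hg : ∀ x y, g x = g y → f x = f y := by
    intro x y hxy
    have := e.injective hxy
    exact congrArg Subtype.val this
  have hg' : ∀ x y, f x = f y → g x = g y := by
    intro x y hxy
    show e _ = e _
    congr 1
    exact Subtype.ext hxy
  have hsurj : Function.Surjective g := by
    intro b
    obtain ⟨⟨_, x, rfl⟩, rfl⟩ := e.surjective b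
    exact ⟨x, rfl⟩
  let R' : Fin (n + 1) → Fin (n + 1) → Prop := fun a b => ∃ x y, g x = a ∧ g y = b ∧ R x y
  have hfwd : ∀ x y, R x y → R' (g x) (g y) := fun x y hR => ⟨x, y, rfl, rfl, hR⟩
  have hback : ∀ x b, R' (g x) b → ∃ y, R x y ∧ g y = b := by
    rintro x _ ⟨x1, y1, hx1, rfl, hR⟩
    obtain ⟨y, hy, he⟩ := hf2 x1 x (hg _ _ hx1) y1 hR
    exact ⟨y, hy, hg' _ _ he⟩
  refine ⟨n, R', ?_, ?_⟩
  · intro ψ hψ V'
    have h1 := truthSet_preimage R R' g hfwd hback V' ψ
    rw [show truthSet R (fun n => g ⁻¹' V' n) ψ = Set.univ from hψ _] at h1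
    ext b
    obtain ⟨x, rfl⟩ := hsurj b
    have : x ∈ g ⁻¹' truthSet R' V' ψ := by rw [← h1]; trivial
    exact ⟨fun _ => trivial, fun _ => this⟩
  · intro hval
    apply hV
    -- the valuation on the quotient
    let V' : ℕ → Set (Fin (n + 1)) := fun i => {b | ∃ x, g x = b ∧ x ∈ V i}
    have h1 := truthSet_preimage R R' g hfwd hback V' φ
    rw [hval V', Set.preimage_univ] at h1
    rw [← h1]
    apply truthSet_congr
    intro i hi
    ext x
    constructor
    · intro hx
      exact ⟨x, rfl, hx⟩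
    · rintro ⟨x', hx', hm⟩
      have := congrFun (hf1 x' x (hg _ _ hx')) ⟨i, hi⟩
      simp only [eq_iff_iff] at this
      exact this.1 hm

end Pool.Agent.Q297.OF
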